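import Mathlib
import Pool.Agent.H16.Hop

set_option autoImplicit false

namespace Pool.Agent.Results.MP_59f6dc_co.No

open Pool.Agent.H16.Hop

theorem result :
    (∀ B : ℕ, ∃ P : Config 3 1, Enlargeable P ∧ B < J P) ∧
    ¬ ∃ f : ℕ → ℕ, ∀ (N d : ℕ), 1 ≤ d → ∀ P : Config N d, Enlargeable P → J P ≤ f N := by
  refine ⟨Pool.Agent.H16.Hop.main, ?_⟩
  rintro ⟨f, hf⟩
  obtain ⟨P, h1, h2⟩ := Pool.Agent.H16.Hop.main (f 3)
  have := hf 3 1 le_rfl P h1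
  omega

end Pool.Agent.Results.MP_59f6dc_co.No
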